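import Mathlib
import Pool.Agent.Stk90.Defs
import Pool.Agent.Stk90.OfAFP

/-!
# An algebraic stack with a field point which is not affine

The definitions `IsAlgStack`, `HasAffineStabilizers`, `IsAtlas` and `IsAffineMap` are in
`Pool.Agent.Stk90.Defs`. A stack is a pseudofunctor on schemes with values in categories which
has the Mathlib property `Pseudofunctor.IsStack`.
-/

namespace Pool.Agent.Results.MP_911691_ag.NonAffinePointOfStack

open CategoryTheory Opposite AlgebraicGeometry Stk90

/-- For the étale topology and for the fppf topology on schemes there is an algebraic stack `F`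
whose diagonal is quasi-compact and separated and whose stabilisers are all affine, with a smooth
atlas by an affine scheme of finite type over the field `𝔽₂`, and with a morphism from `Spec 𝔽₂` to
`F` which is not affine. -/
theorem result (J : GrothendieckTopology Scheme.{0})
    (hJ : J = Scheme.etaleTopology ∨ J = Scheme.fppfTopology) :
    ∃ F : Pseudofunctor (LocallyDiscrete Scheme.{0}ᵒᵖ) Cat.{1, 2},
      IsAlgStack J F ∧ HasAffineStabilizers F ∧
      (∃ (U : Scheme.{0}) (x : Obj F U) (f : U ⟶ Spec (.of (ZMod 2))),
        IsAtlas J F x ∧ IsAffine U ∧ LocallyOfFiniteType f) ∧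
      ∃ x : Obj F (Spec (.of (ZMod 2))), ¬ IsAffineMap F x := by
  rcases hJ with rfl | rfl
  · exact Stk90.final.1
  · exact Stk90.final.2

end Pool.Agent.Results.MP_911691_ag.NonAffinePointOfStack
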